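import Pool.Agent.H5.BHG.Stmts

/-!
Row PCT of the board `bhg` (MP_e3dc0b_lc): the candidates are found in polynomial time.
-/

set_option autoImplicit false

namespace Pool.BHG

open Filter TMLib Pool.PG Pool.DPG

theorem pct_tup (t : ℕ) : PTime (fun n : ℕ => tup n t) := by
  induction t with
  | zero => exact PTime.const [[]]
  | succ t ih =>
    exact (PTime.flatMap (l := fun n : ℕ => List.range n)
      (g := fun (n : ℕ) (a : ℕ) => (tup n t).map (List.cons a)) (PTime.range PTime.id)
      (PTime.map (l := fun p : ℕ × ℕ => tup p.1 t) (g := fun (p : ℕ × ℕ) (b : List ℕ) => p.2 :: b)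
        (ih.comp (PTime.fst PTime.id))
        (PTime.cons (PTime.snd (PTime.fst PTime.id)) (PTime.snd PTime.id)))).congr fun _ => rfl

theorem pct_vm (q : Bool) : PTime (fun g : Game => vm g q) := by
  refine (PFN66.msk' (g := fun g : Game => g) (f := fun g v => own g v == q) PTime.id ?_).congr
    fun _ => rfl
  exact PFN66.beq' (PFN66.own' pv1_row (PTime.fst PTime.id) (PTime.snd PTime.id))
    (PTime.const q)

theorem pct_c0 : PTime c0 :=
  (PTime.cons (PTime.pair (PTime.const true) (pct_vm true))
    (PTime.cons (PTime.pair (PTime.const true) (pct_vm false))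
      (PTime.cons (PTime.pair (PTime.const false) (pct_vm true))
        (PTime.cons (PTime.pair (PTime.const false) (pct_vm false)) (PTime.const []))))).congr
    fun _ => rfl

theorem pct_own1 : PTime (fun p : (Game × List ℕ) × ℕ => own p.1.1 p.2) :=
  PFN66.own' pv1_row (PTime.fst (PTime.fst PTime.id)) (PTime.snd PTime.id)

theorem pct_mem1 : PTime (fun p : (Game × List ℕ) × ℕ => decide (p.2 ∈ p.1.2)) :=
  PFN66.mem' (PTime.snd (PTime.fst PTime.id)) (PTime.snd PTime.id)

theorem pct_m1 : PTime (fun p : Game × List ℕ =>
    msk p.1.length fun v => own p.1 v || decide (v ∈ p.2)) :=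
  PFN66.msk' (g := fun p : Game × List ℕ => p.1)
    (f := fun (p : Game × List ℕ) v => own p.1 v || decide (v ∈ p.2)) (PTime.fst PTime.id)
    (PTime.or pct_own1 pct_mem1)

theorem pct_m2 : PTime (fun p : Game × List ℕ =>
    msk p.1.length fun v => !own p.1 v || decide (v ∈ p.2)) :=
  PFN66.msk' (g := fun p : Game × List ℕ => p.1)
    (f := fun (p : Game × List ℕ) v => !own p.1 v || decide (v ∈ p.2)) (PTime.fst PTime.id)
    (PTime.or (PTime.not pct_own1) pct_mem1)

theorem pct_thm : PCTStmt := by
  refine ⟨pct_c0, fun t => ?_⟩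
  exact (PTime.flatMap (l := fun g : Game => tup g.length t)
    (g := fun (g : Game) (b : List ℕ) =>
      [(true, msk g.length fun v => own g v || decide (v ∈ b)),
       (false, msk g.length fun v => !own g v || decide (v ∈ b))])
    ((pct_tup t).comp (PTime.length PTime.id))
    (PTime.cons (PTime.pair (PTime.const true) pct_m1)
      (PTime.cons (PTime.pair (PTime.const false) pct_m2) (PTime.const [])))).congr fun _ => rfl

end Pool.BHG
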