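import Pool.Agent.H5.BHG.Stmts5

/-! # Board bh3, row HL3 -/

set_option autoImplicit false

namespace Pool.BHG

open Pool.PG Pool.DPG

theorem hl3_pow (m n c : ℕ) (C : ℝ) (hn : 0 < n) (hc : 2 * |C| ≤ c)
    (hm : (m : ℝ) ≤ 2 * C * Real.log n) : 2 ^ m ≤ (n + 2) ^ c := by
  have hn' : (0 : ℝ) < n := by exact_mod_cast hn
  have hlog0 : 0 ≤ Real.log n := Real.log_natCast_nonneg n
  have hlog1 : Real.log n ≤ Real.log ((n : ℝ) + 2) := Real.log_le_log hn' (by linarith)
  have hl2 : Real.log 2 ≤ 1 := by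
    have := Real.log_le_sub_one_of_pos (show (0 : ℝ) < 2 by norm_num)
    linarith
  have hm0 : (0 : ℝ) ≤ m := Nat.cast_nonneg m
  have e1 : (2 : ℝ) ^ m = Real.exp (m * Real.log 2) := by
    rw [Real.exp_nat_mul, Real.exp_log (by norm_num)]
  have e2 : ((n : ℝ) + 2) ^ c = Real.exp (c * Real.log ((n : ℝ) + 2)) := by
    rw [Real.exp_nat_mul, Real.exp_log (by linarith)]
  have h1 : (m : ℝ) * Real.log 2 ≤ c * Real.log ((n : ℝ) + 2) := by
    calc (m : ℝ) * Real.log 2 ≤ m * 1 := mul_le_mul_of_nonneg_left hl2 hm0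
      _ = m := mul_one _
      _ ≤ 2 * C * Real.log n := hm
      _ ≤ 2 * |C| * Real.log n :=
          mul_le_mul_of_nonneg_right (by linarith [le_abs_self C]) hlog0
      _ ≤ c * Real.log n := mul_le_mul_of_nonneg_right hc hlog0
      _ ≤ c * Real.log ((n : ℝ) + 2) := mul_le_mul_of_nonneg_left hlog1 (Nat.cast_nonneg c)
  have key : (2 : ℝ) ^ m ≤ ((n : ℝ) + 2) ^ c := by
    rw [e1, e2]
    exact Real.exp_le_exp.mpr h1
  exact_mod_cast key

theorem hl3_thm : HL3Stmt := by
  intro C
  refine ⟨⌈2 * |C|⌉₊, ?_⟩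
  intro g hg h v hv w hw _ hnm
  have hsub : ∀ x < g.length, (suc g x).toFinset ⊆ Finset.range g.length := fun x hx y hy =>
    Finset.mem_range.2 ((hg x hx).2 y (List.mem_toFinset.1 hy))
  have h1 : Disjoint (suc g v).toFinset (suc g w).toFinset := by
    rw [Finset.disjoint_left]
    intro u hu hu'
    exact hnm (Or.inr (Or.inr ⟨u, List.mem_toFinset.1 hu, List.mem_toFinset.1 hu'⟩))
  have h2 : Disjoint ((suc g v).toFinset ∪ (suc g w).toFinset)
      ((Finset.range g.length).filter fun u => u ∉ suc g v ∧ u ∉ suc g w) := by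
    rw [Finset.disjoint_left]
    intro u hu hu'
    have h3 := (Finset.mem_filter.1 hu').2
    rcases Finset.mem_union.1 hu with h4 | h4
    · exact h3.1 (List.mem_toFinset.1 h4)
    · exact h3.2 (List.mem_toFinset.1 h4)
  have h3 : (((suc g v).toFinset ∪ (suc g w).toFinset) ∪
      ((Finset.range g.length).filter fun u => u ∉ suc g v ∧ u ∉ suc g w)).card ≤ g.length := by
    calc _ ≤ (Finset.range g.length).card :=
          Finset.card_le_card (Finset.union_subset
            (Finset.union_subset (hsub v hv) (hsub w hw)) (Finset.filter_subset _ _))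
      _ = g.length := Finset.card_range _
  rw [Finset.card_union_of_disjoint h2, Finset.card_union_of_disjoint h1] at h3
  have h4 := h v hv
  have h5 := h w hw
  apply hl3_pow _ _ _ C (by omega) (Nat.le_ceil _)
  have h6 : ((suc g v).toFinset.card : ℝ) + (suc g w).toFinset.card +
      (((Finset.range g.length).filter fun u => u ∉ suc g v ∧ u ∉ suc g w).card : ℕ) ≤
      (g.length : ℝ) := by exact_mod_cast h3
  linarith

end Pool.BHG
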